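import Pool.Agent.L0h54.CV.A
import Pool.Agent.L0h63.VR.E2B
import Pool.Agent.L0h66.VR.BLK
import Pool.Agent.L0h92.VR.CNT

set_option autoImplicit false

/-! The mean square over the characters of the off-diagonal part of the square of a short sum. -/

namespace Pool.Agent.L0h54.CW

open Finset
open scoped Classical
open Pool.Agent.L0h54.RM (Wn mem_Wn)
open Pool.Agent.L0h54.GC (sqi sqi_nonneg CC)
open Pool.Agent.L0h62.MT (orth sq_conj)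
open Pool.Agent.L0h54.CL (Qd2 sum_blocks)
open Pool.Agent.L0h66.VR (CC_nonneg)

/-- the mean square over the characters of a family -/
theorem fam_sq2 (P : ℕ) [NeZero P] {ι : Type} (I : Finset ι) (c : ι → ℂ) (u v : ι → ℕ)
    (h : ∀ i ∈ I, ∀ i' ∈ I, ((u i' * v i : ℕ) : ZMod P) = ((u i * v i' : ℕ) : ZMod P) → u i * v i' = u i' * v i) :
    ∑ χ : DirichletCharacter ℂ P,
      ‖∑ i ∈ I, c i * (χ (u i : ZMod P) * (starRingEnd ℂ) (χ (v i : ZMod P)))‖ ^ 2 ≤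
      P * ∑ i ∈ I, ∑ i' ∈ I, ‖c i‖ * ‖c i'‖ * (if u i * v i' = u i' * v i then 1 else 0) := by
  have e1 : ∀ χ : DirichletCharacter ℂ P,
      ((‖∑ i ∈ I, c i * (χ (u i : ZMod P) * (starRingEnd ℂ) (χ (v i : ZMod P)))‖ ^ 2 : ℝ) : ℂ) =
      ∑ i ∈ I, ∑ i' ∈ I, (c i * (starRingEnd ℂ) (c i')) *
        (χ ((u i * v i' : ℕ) : ZMod P) * (starRingEnd ℂ) (χ ((u i' * v i : ℕ) : ZMod P))) := by
    intro χ
    rw [sq_conj, map_sum, sum_mul_sum]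
    refine sum_congr rfl fun i _ => sum_congr rfl fun i' _ => ?_
    push_cast
    simp only [map_mul, Complex.conj_conj]
    ring
  have e2 : ((∑ χ : DirichletCharacter ℂ P,
      ‖∑ i ∈ I, c i * (χ (u i : ZMod P) * (starRingEnd ℂ) (χ (v i : ZMod P)))‖ ^ 2 : ℝ) : ℂ) =
      ∑ i ∈ I, ∑ i' ∈ I, (c i * (starRingEnd ℂ) (c i')) *
        ∑ χ : DirichletCharacter ℂ P,
          (χ ((u i * v i' : ℕ) : ZMod P) * (starRingEnd ℂ) (χ ((u i' * v i : ℕ) : ZMod P))) := by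
    rw [Complex.ofReal_sum]
    simp only [e1]
    rw [sum_comm]
    refine sum_congr rfl fun i _ => ?_
    rw [sum_comm]
    refine sum_congr rfl fun i' _ => ?_
    rw [mul_sum]
  have e3 : ∑ χ : DirichletCharacter ℂ P,
      ‖∑ i ∈ I, c i * (χ (u i : ZMod P) * (starRingEnd ℂ) (χ (v i : ZMod P)))‖ ^ 2 ≤
      ‖((∑ χ : DirichletCharacter ℂ P,
      ‖∑ i ∈ I, c i * (χ (u i : ZMod P) * (starRingEnd ℂ) (χ (v i : ZMod P)))‖ ^ 2 : ℝ) : ℂ)‖ := by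
    rw [Complex.norm_real]
    exact le_abs_self _
  refine e3.trans ?_
  rw [e2, mul_sum]
  refine (norm_sum_le _ _).trans (sum_le_sum fun i hi => ?_)
  rw [mul_sum]
  refine (norm_sum_le _ _).trans (sum_le_sum fun i' hi' => ?_)
  rw [orth, norm_mul, norm_mul, Complex.norm_conj]
  have hφ : ((P.totient : ℕ) : ℝ) ≤ P := by exact_mod_cast Nat.totient_le P
  by_cases hc : IsUnit ((u i' * v i : ℕ) : ZMod P) ∧ ((u i' * v i : ℕ) : ZMod P) = ((u i * v i' : ℕ) : ZMod P)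
  · have h1 := h i hi i' hi' hc.2
    rw [if_pos hc, if_pos h1, mul_one, Complex.norm_natCast]
    calc ‖c i‖ * ‖c i'‖ * (P.totient : ℝ) ≤ ‖c i‖ * ‖c i'‖ * P := by gcongr
      _ = _ := by ring
  · rw [if_neg hc, norm_zero, mul_zero]
    split_ifs <;> positivity

/-- ordered pairs and unordered pairs -/
lemma offDiag_le (W : Finset ℕ) (F : Finset ℕ → ℝ) (hF : ∀ T, 0 ≤ F T) :
    ∑ w ∈ W.offDiag, F {w.1, w.2} ≤ 2 * ∑ T ∈ W.powersetCard 2, F T := by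
  have hmap : ∀ w ∈ W.offDiag, ({w.1, w.2} : Finset ℕ) ∈ W.powersetCard 2 := by
    intro w hw
    rw [mem_offDiag] at hw
    rw [mem_powersetCard]
    refine ⟨?_, card_pair hw.2.2⟩
    intro x hx
    rw [mem_insert, mem_singleton] at hx
    rcases hx with rfl | rfl
    · exact hw.1
    · exact hw.2.1
  rw [← sum_fiberwise_of_maps_to hmap, mul_sum]
  refine sum_le_sum fun T hT => ?_
  have h1 : ∑ w ∈ W.offDiag with ({w.1, w.2} : Finset ℕ) = T, F {w.1, w.2} =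
      ((W.offDiag.filter (fun w => ({w.1, w.2} : Finset ℕ) = T)).card : ℝ) * F T := by
    rw [← nsmul_eq_mul, ← sum_const]
    refine sum_congr rfl fun w hw => ?_
    rw [(mem_filter.1 hw).2]
  rw [h1]
  apply mul_le_mul_of_nonneg_right _ (hF T)
  rw [mem_powersetCard] at hT
  obtain ⟨x, y, hxy, hT2⟩ := card_eq_two.1 hT.2
  have h2 : W.offDiag.filter (fun w => ({w.1, w.2} : Finset ℕ) = T) ⊆ {(x, y), (y, x)} := by
    intro w hw
    rw [mem_filter, mem_offDiag, hT2] at hw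
    obtain ⟨⟨-, -, hne⟩, he⟩ := hw
    have a1 : w.1 ∈ ({x, y} : Finset ℕ) := by rw [← he]; simp
    have a2 : w.2 ∈ ({x, y} : Finset ℕ) := by rw [← he]; simp
    rw [mem_insert, mem_singleton] at a1 a2
    rw [mem_insert, mem_singleton]
    rcases a1 with a1 | a1 <;> rcases a2 with a2 | a2
    · exact absurd (a1.trans a2.symm) hne
    · left; exact Prod.ext a1 a2
    · right; exact Prod.ext a1 a2
    · exact absurd (a1.trans a2.symm) hne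
  have h3 := (card_le_card h2).trans (card_le_two)
  exact_mod_cast h3

/-- the off-diagonal part -/
noncomputable def OD {P : ℕ} (g : ℕ → ℂ) (χ : DirichletCharacter ℂ P) (L a : ℕ) : ℝ :=
  ‖∑ n ∈ Wn a L, g n * χ (n : ZMod P)‖ ^ 2 - ∑ n ∈ Wn a L, ‖g n * χ (n : ZMod P)‖ ^ 2

lemma OD_eq {P : ℕ} (g : ℕ → ℂ) (χ : DirichletCharacter ℂ P) (L a : ℕ) :
    ((OD g χ L a : ℝ) : ℂ) = ∑ w ∈ (Wn a L).offDiag, (g w.1 * (starRingEnd ℂ) (g w.2)) *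
      (χ (w.1 : ZMod P) * (starRingEnd ℂ) (χ (w.2 : ZMod P))) := by
  unfold OD
  push_cast
  have h1 : ((‖∑ n ∈ Wn a L, g n * χ (n : ZMod P)‖ : ℂ)) ^ 2 =
      ((‖∑ n ∈ Wn a L, g n * χ (n : ZMod P)‖ ^ 2 : ℝ) : ℂ) := by push_cast; rfl
  have h2 : ∀ n, ((‖g n * χ (n : ZMod P)‖ : ℂ)) ^ 2 = ((‖g n * χ (n : ZMod P)‖ ^ 2 : ℝ) : ℂ) := by
    intro n; push_cast; rfl
  rw [h1, sq_conj, map_sum, sum_mul_sum, ← sum_product', ← diag_union_offDiag, sum_union (disjoint_diag_offDiag _),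
    sum_diag]
  simp only [h2, sq_conj]
  rw [add_sub_cancel_left]
  refine sum_congr rfl fun w _ => ?_
  rw [map_mul]
  ring

/-- equality of fractions from a congruence -/
lemma ratio_eq (P N L n n' k k' : ℕ) (hm : 6 * N * L ≤ P) (a2 : n ≤ 3 * N) (b2 : k ≤ 3 * N) (a1 : N < n)
    (a5 : n < n' + L) (a6 : n' < n + L) (b5 : k < k' + L) (b6 : k' < k + L)
    (hc : ((k * n' : ℕ) : ZMod P) = ((n * k' : ℕ) : ZMod P)) : n * k' = k * n' := by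
  have hd : (P : ℤ) ∣ ((n * k' : ℕ) : ℤ) - ((k * n' : ℕ) : ℤ) := by
    rw [ZMod.natCast_eq_natCast_iff] at hc
    exact (Nat.modEq_iff_dvd.1 hc)
  have hL : (1:ℤ) ≤ L := by
    have : 1 ≤ L := by omega
    exact_mod_cast this
  have hN : (1:ℤ) ≤ N := by
    have : 1 ≤ N := by omega
    exact_mod_cast this
  have hb : |((n * k' : ℕ) : ℤ) - ((k * n' : ℕ) : ℤ)| < P := by
    have e : ((n * k' : ℕ) : ℤ) - ((k * n' : ℕ) : ℤ) = (n:ℤ) * ((k':ℤ) - k) - k * ((n':ℤ) - n) := by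
      push_cast; ring
    have c1 : |(n:ℤ) * ((k':ℤ) - k)| ≤ 3 * N * (L - 1) := by
      rw [abs_mul]
      have d1 : |(n:ℤ)| ≤ 3 * N := by rw [abs_of_nonneg (by positivity)]; exact_mod_cast a2
      have d2 : |(k':ℤ) - k| ≤ L - 1 := by rw [abs_le]; constructor <;> omega
      exact mul_le_mul d1 d2 (abs_nonneg _) (by positivity)
    have c2 : |(k:ℤ) * ((n':ℤ) - n)| ≤ 3 * N * (L - 1) := by
      rw [abs_mul]
      have d1 : |(k:ℤ)| ≤ 3 * N := by rw [abs_of_nonneg (by positivity)]; exact_mod_cast b2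
      have d2 : |(n':ℤ) - n| ≤ L - 1 := by rw [abs_le]; constructor <;> omega
      exact mul_le_mul d1 d2 (abs_nonneg _) (by positivity)
    rw [e]
    have c3 := abs_sub (((n:ℤ) * ((k':ℤ) - k))) (k * ((n':ℤ) - n))
    have c4 : (6 * N * L : ℤ) ≤ P := by exact_mod_cast hm
    nlinarith
  have hz := Int.eq_zero_of_abs_lt_dvd hd hb
  have : ((n * k' : ℕ) : ℤ) = ((k * n' : ℕ) : ℤ) := by linarith
  exact_mod_cast this

/-- a set of window positions -/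
theorem blkC (P : ℕ) [NeZero P] (g : ℕ → ℂ) (hg : ∀ n, ‖g n‖ ≤ 1) (N L : ℕ) (hm : 6 * N * L ≤ P) (hLN : L ≤ N)
    (A : Finset ℕ) (hA : A ⊆ Ico N (2 * N)) :
    ∑ χ : DirichletCharacter ℂ P, (∑ a ∈ A, OD g χ L a) ^ 2 ≤
      (4 * P) * ∑ a ∈ A, ∑ b ∈ A, CC 2 L a b := by
  obtain ⟨I, hI⟩ : ∃ I : Finset ((_ : ℕ) × (ℕ × ℕ)), I = A.sigma (fun a => (Wn a L).offDiag) := ⟨_, rfl⟩
  have hmem : ∀ x ∈ I, x.1 ∈ A ∧ x.2 ∈ (Wn x.1 L).offDiag := by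
    intro x hx
    rw [hI, mem_sigma] at hx
    exact hx
  have hr : ∀ x ∈ I, (N < x.2.1 ∧ x.2.1 ≤ 3 * N) ∧ (N < x.2.2 ∧ x.2.2 ≤ 3 * N) ∧
      x.2.1 < x.2.2 + L ∧ x.2.2 < x.2.1 + L := by
    intro x hx
    obtain ⟨h1, h2⟩ := hmem x hx
    have h3 := mem_Ico.1 (hA h1)
    rw [mem_offDiag] at h2
    have h4 := mem_Wn.1 h2.1
    have h5 := mem_Wn.1 h2.2.1
    omega
  have h1 := fam_sq2 P I (fun x => g x.2.1 * (starRingEnd ℂ) (g x.2.2)) (fun x => x.2.1) (fun x => x.2.2) (by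
    intro i hi i' hi' hc
    obtain ⟨⟨a1, a2⟩, ⟨a3, a4⟩, a5, a6⟩ := hr i hi
    obtain ⟨⟨b1, b2⟩, ⟨b3, b4⟩, b5, b6⟩ := hr i' hi'
    exact ratio_eq P N L i.2.1 i.2.2 i'.2.1 i'.2.2 hm a2 b2 a1 a5 a6 b5 b6 hc)
  have e1 : ∀ χ : DirichletCharacter ℂ P, (∑ a ∈ A, OD g χ L a) ^ 2 =
      ‖∑ i ∈ I, g i.2.1 * (starRingEnd ℂ) (g i.2.2) *
        (χ (i.2.1 : ZMod P) * (starRingEnd ℂ) (χ (i.2.2 : ZMod P)))‖ ^ 2 := by
    intro χ
    rw [hI, sum_sigma]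
    have : ∑ a ∈ A, ∑ w ∈ (Wn a L).offDiag, g w.1 * (starRingEnd ℂ) (g w.2) *
        (χ (w.1 : ZMod P) * (starRingEnd ℂ) (χ (w.2 : ZMod P))) = ((∑ a ∈ A, OD g χ L a : ℝ) : ℂ) := by
      rw [Complex.ofReal_sum]
      exact sum_congr rfl fun a _ => (OD_eq g χ L a).symm
    rw [this, Complex.norm_real, Real.norm_eq_abs, sq_abs]
  simp only [e1]
  refine h1.trans ?_
  have h2 : ∑ i ∈ I, ∑ i' ∈ I, ‖g i.2.1 * (starRingEnd ℂ) (g i.2.2)‖ * ‖g i'.2.1 * (starRingEnd ℂ) (g i'.2.2)‖ *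
      (if i.2.1 * i'.2.2 = i'.2.1 * i.2.2 then (1:ℝ) else 0) ≤
      4 * ∑ a ∈ A, ∑ b ∈ A, CC 2 L a b := by
    have hg2 : ∀ i : (_ : ℕ) × (ℕ × ℕ), ‖g i.2.1 * (starRingEnd ℂ) (g i.2.2)‖ ≤ 1 := by
      intro i
      rw [norm_mul, Complex.norm_conj]
      exact mul_le_one₀ (hg _) (norm_nonneg _) (hg _)
    have h3 : ∑ i ∈ I, ∑ i' ∈ I, ‖g i.2.1 * (starRingEnd ℂ) (g i.2.2)‖ *
        ‖g i'.2.1 * (starRingEnd ℂ) (g i'.2.2)‖ * (if i.2.1 * i'.2.2 = i'.2.1 * i.2.2 then (1:ℝ) else 0) ≤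
        ∑ i ∈ I, ∑ i' ∈ I, sqi ((∏ n ∈ ({i.2.1, i.2.2} : Finset ℕ), n) * ∏ n ∈ ({i'.2.1, i'.2.2} : Finset ℕ), n) := by
      refine sum_le_sum fun i hi => sum_le_sum fun i' hi' => ?_
      have n1 := (mem_offDiag.1 (hmem i hi).2).2.2
      have n2 := (mem_offDiag.1 (hmem i' hi').2).2.2
      rw [prod_pair n1, prod_pair n2]
      by_cases h : i.2.1 * i'.2.2 = i'.2.1 * i.2.2
      · rw [if_pos h, mul_one]
        have h4 : IsSquare (i.2.1 * i.2.2 * (i'.2.1 * i'.2.2)) := by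
          refine ⟨i.2.1 * i'.2.2, ?_⟩
          nth_rewrite 2 [h]
          ring
        unfold sqi
        rw [if_pos h4]
        exact mul_le_one₀ (hg2 i) (norm_nonneg _) (hg2 i')
      · rw [if_neg h, mul_zero]
        exact sqi_nonneg _
    refine h3.trans ?_
    rw [hI, sum_sigma, mul_sum]
    refine sum_le_sum fun a _ => ?_
    simp only [sum_sigma]
    rw [sum_comm, mul_sum]
    refine sum_le_sum fun b _ => ?_
    have h5 : ∀ T : Finset ℕ, ∑ w' ∈ (Wn b L).offDiag, sqi ((∏ n ∈ T, n) * ∏ n ∈ ({w'.1, w'.2} : Finset ℕ), n) ≤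
        2 * ∑ R ∈ (Wn b L).powersetCard 2, sqi ((∏ n ∈ T, n) * ∏ n ∈ R, n) := fun T =>
      offDiag_le (Wn b L) (fun R => sqi ((∏ n ∈ T, n) * ∏ n ∈ R, n)) (fun R => sqi_nonneg _)
    refine (sum_le_sum fun w _ => h5 {w.1, w.2}).trans ?_
    rw [← mul_sum]
    have h6 := offDiag_le (Wn a L) (fun T => ∑ R ∈ (Wn b L).powersetCard 2, sqi ((∏ n ∈ T, n) * ∏ n ∈ R, n))
      (fun T => sum_nonneg fun R _ => sqi_nonneg _)
    have h7 : CC 2 L a b = ∑ T ∈ (Wn a L).powersetCard 2, ∑ R ∈ (Wn b L).powersetCard 2,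
        sqi ((∏ n ∈ T, n) * ∏ n ∈ R, n) := rfl
    rw [h7]
    linarith
  calc (P:ℝ) * ∑ i ∈ I, ∑ i' ∈ I, ‖g i.2.1 * (starRingEnd ℂ) (g i.2.2)‖ * ‖g i'.2.1 * (starRingEnd ℂ) (g i'.2.2)‖ *
      (if i.2.1 * i'.2.2 = i'.2.1 * i.2.2 then (1:ℝ) else 0) ≤ P * (4 * ∑ a ∈ A, ∑ b ∈ A, CC 2 L a b) :=
        mul_le_mul_of_nonneg_left h2 (Nat.cast_nonneg _)
    _ = _ := by ring

end Pool.Agent.L0h54.CW
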