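import Mathlib

set_option autoImplicit false

/-! From the sums over the window positions to the integral of the mean square (complex coefficients). -/

namespace Pool.Agent.L0h54.CW

open Finset MeasureTheory Filter

lemma ii_fl (g : ℕ → ℝ) (K : ℝ) (hg : ∀ a, |g a| ≤ K) (A B : ℝ) :
    IntervalIntegrable (fun y : ℝ => g ⌊y⌋₊) volume A B := by
  have hm : Measurable (fun y : ℝ => g ⌊y⌋₊) := (Measurable.of_discrete (f := g)).comp
    Nat.measurable_floor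
  refine (intervalIntegrable_const (c := K)).mono_fun hm.aestronglyMeasurable ?_
  refine Eventually.of_forall fun y => ?_
  show ‖g ⌊y⌋₊‖ ≤ ‖K‖
  rw [Real.norm_eq_abs, Real.norm_eq_abs]
  exact (hg ⌊y⌋₊).trans (le_abs_self K)

lemma int_fl (g : ℕ → ℝ) (K : ℝ) (hg : ∀ a, |g a| ≤ K) (N N' : ℕ) (hN : N ≤ N') :
    ∫ y in (N:ℝ)..(N' : ℝ), g ⌊y⌋₊ = ∑ a ∈ Ico N N', g a := by
  have h1 := intervalIntegral.sum_integral_adjacent_intervals_Ico (a := fun k : ℕ => (k : ℝ))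
    (f := fun y : ℝ => g ⌊y⌋₊) (μ := volume) hN
    (fun k _ => ii_fl g K hg _ _)
  rw [← h1]
  apply sum_congr rfl
  intro k _
  have h2 : ∫ y in (k:ℝ)..((k + 1 : ℕ) : ℝ), g ⌊y⌋₊ = ∫ y in (k:ℝ)..((k + 1 : ℕ) : ℝ), g k := by
    rw [intervalIntegral.integral_of_le (by push_cast; linarith),
      intervalIntegral.integral_of_le (by push_cast; linarith), ← integral_Ico_eq_integral_Ioc,
      ← integral_Ico_eq_integral_Ioc]
    apply setIntegral_congr_fun measurableSet_Ico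
    intro y hy
    simp only
    congr 1
    rw [Nat.floor_eq_iff (by exact (Nat.cast_nonneg k).trans hy.1)]
    refine ⟨hy.1, ?_⟩
    have := hy.2
    push_cast at this
    exact this
  rw [h2, intervalIntegral.integral_const]
  push_cast
  rw [add_sub_cancel_left, one_smul]

lemma diff_fl (g : ℕ → ℝ) (K : ℝ) (hg : ∀ a, |g a| ≤ K) (A B A' B' : ℝ) :
    |(∫ y in A..B, g ⌊y⌋₊) - ∫ y in A'..B', g ⌊y⌋₊| ≤ K * |A - A'| + K * |B - B'| := by
  rw [intervalIntegral.integral_interval_sub_interval_comm (ii_fl g K hg _ _)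
    (ii_fl g K hg _ _) (ii_fl g K hg _ _)]
  refine (abs_sub _ _).trans ?_
  have h1 := intervalIntegral.norm_integral_le_of_norm_le_const (a := A) (b := A') (C := K)
    (f := fun y : ℝ => g ⌊y⌋₊) (fun x _ => hg _)
  have h2 := intervalIntegral.norm_integral_le_of_norm_le_const (a := B) (b := B') (C := K)
    (f := fun y : ℝ => g ⌊y⌋₊) (fun x _ => hg _)
  rw [Real.norm_eq_abs] at h1 h2
  rw [abs_sub_comm A A', abs_sub_comm B B']
  linarith

/-- the window sum -/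
noncomputable def Tw (g : ℕ → ℂ) (H x : ℝ) : ℂ :=
  ∑ n ∈ (range (⌊x + H⌋₊ + 1)).filter (fun n : ℕ => |(n:ℝ) - x| < H / 2), g n

lemma Tw_near (g : ℕ → ℂ) (hg : ∀ n, ‖g n‖ ≤ 1) (H x : ℝ) (hH : 4 ≤ H) (hx : H / 2 ≤ x) :
    ‖Tw g H x - ∑ n ∈ Ioc ⌊x - H / 2⌋₊ (⌊x - H / 2⌋₊ + ⌊H⌋₊), g n‖ ≤ 2 := by
  obtain ⟨L, hL⟩ : ∃ L, L = ⌊H⌋₊ := ⟨_, rfl⟩
  obtain ⟨a, ha⟩ : ∃ a, a = ⌊x - H / 2⌋₊ := ⟨_, rfl⟩
  rw [← hL, ← ha]
  have L1 : (L : ℝ) ≤ H := by rw [hL]; exact Nat.floor_le (by linarith)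
  have L2 : H < L + 1 := by rw [hL]; exact Nat.lt_floor_add_one _
  have a1 : (a : ℝ) ≤ x - H / 2 := by rw [ha]; exact Nat.floor_le (by linarith)
  have a2 : x - H / 2 < a + 1 := by rw [ha]; exact Nat.lt_floor_add_one _
  obtain ⟨W, hW⟩ : ∃ W, W = (range (⌊x + H⌋₊ + 1)).filter (fun n : ℕ => |(n:ℝ) - x| < H / 2) := ⟨_, rfl⟩
  unfold Tw
  rw [← hW, ← sum_sdiff_sub_sum_sdiff]
  have h1 : W \ Ioc a (a + L) ⊆ {a + L + 1} := by
    intro n hn
    rw [Finset.mem_sdiff, hW, mem_filter, mem_Ioc] at hn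
    obtain ⟨⟨-, h2⟩, h3⟩ := hn
    rw [abs_lt] at h2
    rw [mem_singleton]
    have h4 : a < n := by
      have : (a:ℝ) < n := by linarith [h2.1]
      exact_mod_cast this
    have h5 : n < a + L + 2 := by
      have : (n:ℝ) < a + L + 2 := by linarith [h2.2]
      exact_mod_cast this
    omega
  have h2 : Ioc a (a + L) \ W ⊆ {a + L} := by
    intro n hn
    rw [Finset.mem_sdiff, hW, mem_filter, mem_Ioc, mem_range] at hn
    obtain ⟨⟨h2, h3⟩, h4⟩ := hn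
    rw [mem_singleton]
    by_contra hne
    apply h4
    have h5 : n + 1 ≤ a + L := by omega
    have h6 : (n:ℝ) + 1 ≤ a + L := by exact_mod_cast h5
    have h7 : (a:ℝ) + 1 ≤ n := by exact_mod_cast h2
    refine ⟨?_, ?_⟩
    · have : n ≤ ⌊x + H⌋₊ := Nat.le_floor (by linarith)
      omega
    · rw [abs_lt]
      constructor <;> linarith
  have h3 : ∀ (s : Finset ℕ) (b : ℕ), s ⊆ {b} → ‖∑ n ∈ s, g n‖ ≤ 1 := by
    intro s b hs
    refine (norm_sum_le _ _).trans ((sum_le_sum fun n _ => hg n).trans ?_)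
    rw [sum_const, nsmul_eq_mul, mul_one]
    have := (card_le_card hs).trans (card_singleton b).le
    exact_mod_cast this
  refine (norm_sub_le _ _).trans ?_
  have := h3 _ _ h1
  have := h3 _ _ h2
  linarith

/-- the window sum as a sum with indicator functions -/
lemma Tw_eq (g : ℕ → ℂ) (H X x : ℝ) (hH : 0 < H) (hx : x ≤ 2 * X) :
    Tw g H x = ∑ n ∈ range (⌊2 * X + H⌋₊ + 1), if |(n:ℝ) - x| < H / 2 then g n else 0 := by
  unfold Tw
  rw [← sum_filter]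
  congr 1
  ext n
  rw [mem_filter, mem_filter, mem_range, mem_range]
  constructor
  · rintro ⟨h1, h2⟩
    refine ⟨lt_of_lt_of_le h1 ?_, h2⟩
    have : ⌊x + H⌋₊ ≤ ⌊2 * X + H⌋₊ := Nat.floor_le_floor (by linarith)
    omega
  · rintro ⟨h1, h2⟩
    refine ⟨?_, h2⟩
    rw [abs_lt] at h2
    have : n ≤ ⌊x + H⌋₊ := Nat.le_floor (by linarith)
    omega

lemma meas_T (g : ℕ → ℂ) (H : ℝ) (K : ℕ) :
    Measurable (fun x : ℝ => ∑ n ∈ range K, if |(n:ℝ) - x| < H / 2 then g n else 0) := by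
  refine Finset.measurable_sum _ fun n _ => ?_
  refine Measurable.ite ?_ measurable_const measurable_const
  exact measurableSet_lt ((measurable_const.sub measurable_id).abs) measurable_const

lemma cum_diff (g : ℕ → ℂ) (hg : ∀ n, ‖g n‖ ≤ 1) (a b : ℕ) :
    |∑ n ∈ range a, ‖g n‖ ^ 2 - ∑ n ∈ range b, ‖g n‖ ^ 2| ≤ |(a:ℝ) - b| := by
  have key : ∀ a b : ℕ, a ≤ b → |∑ n ∈ range a, ‖g n‖ ^ 2 - ∑ n ∈ range b, ‖g n‖ ^ 2| ≤ |(a:ℝ) - b| := by
    intro a b hab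
    have e := sum_Ico_eq_sub (fun n => ‖g n‖ ^ 2) hab
    have h0 : 0 ≤ ∑ n ∈ Ico a b, ‖g n‖ ^ 2 := sum_nonneg fun _ _ => by positivity
    have h1 : ∑ n ∈ Ico a b, ‖g n‖ ^ 2 ≤ (b:ℝ) - a := by
      refine (sum_le_sum fun n _ => pow_le_one₀ (norm_nonneg _) (hg n)).trans ?_
      rw [sum_const, Nat.card_Ico, nsmul_eq_mul, mul_one, Nat.cast_sub hab]
    have hab' : (a:ℝ) ≤ b := by exact_mod_cast hab
    rw [abs_sub_comm, abs_of_nonneg (by linarith), abs_sub_comm, abs_of_nonneg (by linarith)]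
    linarith
  rcases le_total a b with h | h
  · exact key a b h
  · rw [abs_sub_comm, abs_sub_comm (a:ℝ)]
    exact key b a h

theorem int_form : ∃ C : ℝ, 0 < C ∧ ∀ (g : ℕ → ℂ), (∀ n, ‖g n‖ ≤ 1) → ∀ X H D : ℝ, 4 ≤ H → 4 * H ≤ X → 0 ≤ D →
    (∀ Y A B : ℕ, X / 4 ≤ Y → (Y:ℝ) ≤ 2 * X → Y ≤ A → A ≤ B → B ≤ 2 * Y →
      |∑ a ∈ Ico A B, ‖∑ n ∈ Ioc a (a + ⌊H⌋₊), g n‖ ^ 2 - ⌊H⌋₊ * ∑ n ∈ Ico A B, ‖g n‖ ^ 2| ≤ D) →
    |(∫ x in X..2 * X, ‖∑ n ∈ (range (⌊x + H⌋₊ + 1)).filter (fun n : ℕ => |(n:ℝ) - x| < H / 2), g n‖ ^ 2) -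
      H * ∑ n ∈ Ico ⌈X⌉₊ ⌈2 * X⌉₊, ‖g n‖ ^ 2| ≤ C * (D + X * √H + H ^ 2) := by
  refine ⟨30, by norm_num, ?_⟩
  intro g hg X H D hH hX hD0 hvar
  obtain ⟨L, hL⟩ : ∃ L, L = ⌊H⌋₊ := ⟨_, rfl⟩
  rw [← hL] at hvar
  have L1 : (L : ℝ) ≤ H := by rw [hL]; exact Nat.floor_le (by linarith)
  have L2 : H < L + 1 := by rw [hL]; exact Nat.lt_floor_add_one _
  have hL0 : (0:ℝ) ≤ L := Nat.cast_nonneg _
  have hX0 : 0 < X := by linarith
  have hH0 : 0 < H := by linarith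
  obtain ⟨q, hq⟩ : ∃ q : ℕ → ℝ, q = fun a => ‖∑ n ∈ Ioc a (a + L), g n‖ ^ 2 := ⟨_, rfl⟩
  have hT : ∀ a, ‖∑ n ∈ Ioc a (a + L), g n‖ ≤ L := by
    intro a
    refine (norm_sum_le _ _).trans ((sum_le_sum fun n _ => hg n).trans ?_)
    rw [sum_const, nsmul_eq_mul, mul_one, Nat.card_Ioc, Nat.add_sub_cancel_left]
  have hqK : ∀ a, |q a| ≤ (L:ℝ) ^ 2 := by
    intro a
    rw [hq]
    simp only
    rw [abs_of_nonneg (by positivity)]
    exact pow_le_pow_left₀ (norm_nonneg _) (hT a) 2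
  obtain ⟨A, hA⟩ : ∃ A, A = ⌊X - H / 2⌋₊ := ⟨_, rfl⟩
  obtain ⟨A', hA'⟩ : ∃ A', A' = ⌊2 * X - H / 2⌋₊ := ⟨_, rfl⟩
  have A1 : (A : ℝ) ≤ X - H / 2 := by rw [hA]; exact Nat.floor_le (by linarith)
  have A2 : X - H / 2 < A + 1 := by rw [hA]; exact Nat.lt_floor_add_one _
  have A3 : (A' : ℝ) ≤ 2 * X - H / 2 := by rw [hA']; exact Nat.floor_le (by linarith)
  have A4 : 2 * X - H / 2 < A' + 1 := by rw [hA']; exact Nat.lt_floor_add_one _
  have hAA : A ≤ A' := by rw [hA, hA']; exact Nat.floor_le_floor (by linarith)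
  have hs1 : |∑ a ∈ Ico A A', q a - L * ∑ n ∈ Ico A A', ‖g n‖ ^ 2| ≤ 2 * D := by
    rw [hq]
    rcases Nat.lt_or_ge (2 * A) A' with h | h
    · have k1 := hvar A A (2 * A) (by linarith) (by linarith) le_rfl (by omega) le_rfl
      have k2 := hvar (2 * A) (2 * A) A' (by push_cast; linarith) (by push_cast; linarith) le_rfl h.le (by
        have : (A':ℝ) ≤ ((2 * (2 * A) : ℕ) : ℝ) := by push_cast; linarith
        exact_mod_cast this)
      rw [← sum_Ico_consecutive (fun a => ‖∑ n ∈ Ioc a (a + L), g n‖ ^ 2) (by omega : A ≤ 2 * A) h.le,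
        ← sum_Ico_consecutive (fun n => ‖g n‖ ^ 2) (by omega : A ≤ 2 * A) h.le]
      rw [abs_le] at k1 k2 ⊢
      constructor <;> nlinarith [k1.1, k1.2, k2.1, k2.2]
    · have k1 := hvar A A A' (by linarith) (by linarith) le_rfl hAA h
      refine k1.trans (by linarith)
  -- the integral of `q`
  obtain ⟨I2, hI2⟩ : ∃ I2 : ℝ, I2 = ∫ x in X..(2 * X), q ⌊x - H / 2⌋₊ := ⟨_, rfl⟩
  have hcomp : I2 = ∫ y in (X - H / 2)..(2 * X - H / 2), q ⌊y⌋₊ := by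
    rw [hI2]
    exact intervalIntegral.integral_comp_sub_right (fun y => q ⌊y⌋₊) (H / 2)
  have hd := diff_fl q ((L:ℝ) ^ 2) hqK (X - H / 2) (2 * X - H / 2) A A'
  rw [← hcomp, int_fl q ((L:ℝ) ^ 2) hqK A A' hAA] at hd
  have hLH : (L:ℝ) ^ 2 ≤ H ^ 2 := pow_le_pow_left₀ hL0 L1 2
  have hd' : |I2 - ∑ a ∈ Ico A A', q a| ≤ 2 * H ^ 2 := by
    refine hd.trans ?_
    have b1 : |X - H / 2 - A| ≤ 1 := by rw [abs_le]; constructor <;> linarith
    have b2 : |2 * X - H / 2 - A'| ≤ 1 := by rw [abs_le]; constructor <;> linarith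
    have b3 : (L:ℝ) ^ 2 * |X - H / 2 - A| ≤ H ^ 2 * 1 :=
      mul_le_mul hLH b1 (abs_nonneg _) (by positivity)
    have b4 : (L:ℝ) ^ 2 * |2 * X - H / 2 - A'| ≤ H ^ 2 * 1 :=
      mul_le_mul hLH b2 (abs_nonneg _) (by positivity)
    linarith
  -- the diagonal
  obtain ⟨U, hU⟩ : ∃ U : ℝ, U = ∑ n ∈ Ico A A', ‖g n‖ ^ 2 := ⟨_, rfl⟩
  obtain ⟨V, hV⟩ : ∃ V : ℝ, V = ∑ n ∈ Ico ⌈X⌉₊ ⌈2 * X⌉₊, ‖g n‖ ^ 2 := ⟨_, rfl⟩
  have c1 : X ≤ (⌈X⌉₊ : ℝ) := Nat.le_ceil _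
  have c2 : (⌈X⌉₊ : ℝ) < X + 1 := Nat.ceil_lt_add_one hX0.le
  have c3 : 2 * X ≤ (⌈2 * X⌉₊ : ℝ) := Nat.le_ceil _
  have c4 : (⌈2 * X⌉₊ : ℝ) < 2 * X + 1 := Nat.ceil_lt_add_one (by linarith)
  have hUV : |U - V| ≤ H + 4 := by
    rw [hU, hV, sum_Ico_eq_sub _ hAA, sum_Ico_eq_sub _ (Nat.ceil_le_ceil (by linarith))]
    have d1 := cum_diff g hg A' ⌈2 * X⌉₊
    have d2 := cum_diff g hg A ⌈X⌉₊
    have d3 : |(A':ℝ) - (⌈2 * X⌉₊ : ℝ)| ≤ H / 2 + 2 := by rw [abs_le]; constructor <;> linarith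
    have d4 : |(A:ℝ) - (⌈X⌉₊ : ℝ)| ≤ H / 2 + 2 := by rw [abs_le]; constructor <;> linarith
    have d5 := d1.trans d3
    have d6 := d2.trans d4
    rw [abs_le] at d5 d6 ⊢
    constructor <;> linarith [d5.1, d5.2, d6.1, d6.2]
  have hV0 : 0 ≤ V := by rw [hV]; exact sum_nonneg fun _ _ => by positivity
  have hV1 : V ≤ X + 1 := by
    rw [hV]
    refine (sum_le_sum fun n _ => pow_le_one₀ (norm_nonneg _) (hg n)).trans ?_
    rw [sum_const, Nat.card_Ico, nsmul_eq_mul, mul_one, Nat.cast_sub (Nat.ceil_le_ceil (by linarith))]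
    linarith
  have hdiag : |L * U - H * V| ≤ H * (H + 4) + (X + 1) := by
    have e : L * U - H * V = L * (U - V) - (H - L) * V := by ring
    rw [e]
    refine (abs_sub _ _).trans ?_
    rw [abs_mul, abs_mul, abs_of_nonneg hL0, abs_of_nonneg (by linarith : (0:ℝ) ≤ H - L), abs_of_nonneg hV0]
    have b1 : L * |U - V| ≤ H * (H + 4) := mul_le_mul L1 hUV (abs_nonneg _) hH0.le
    have b2 : (H - L) * V ≤ 1 * (X + 1) := mul_le_mul (by linarith) hV1 hV0 (by norm_num)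
    linarith
  have hHX : 0 < H * X := by positivity
  have hH2X : 4 * H ^ 2 ≤ H * X := by nlinarith
  have hX4 : 4 * X ≤ H * X := by nlinarith
  have hI2b : |I2 - H * V| ≤ 2 * H ^ 2 + 2 * D + (H * (H + 4) + (X + 1)) := by
    rw [← hU] at hs1
    rw [abs_le] at hd' hs1 hdiag ⊢
    constructor <;> linarith [hd'.1, hd'.2, hs1.1, hs1.2, hdiag.1, hdiag.2]
  have hI2u : I2 ≤ 8 * (H * X) + 2 * D := by
    have h1 := (abs_le.mp hI2b).2
    have h2 : H * V ≤ H * (X + 1) := mul_le_mul_of_nonneg_left hV1 hH0.le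
    nlinarith
  -- comparison
  obtain ⟨s, hs⟩ : ∃ s, s = √H := ⟨_, rfl⟩
  have hs2 : s ^ 2 = H := by rw [hs]; exact Real.sq_sqrt hH0.le
  have hs0 : 0 < s := by rw [hs]; positivity
  have hs2' : 2 ≤ s := by
    rw [hs]
    exact Real.le_sqrt_of_sq_le (by norm_num; linarith)
  obtain ⟨T, hTd⟩ : ∃ T : ℝ → ℂ, T = fun x => ∑ n ∈ range (⌊2 * X + H⌋₊ + 1),
    if |(n:ℝ) - x| < H / 2 then g n else 0 := ⟨_, rfl⟩
  have hTw : ∀ x ∈ Set.Icc X (2 * X), Tw g H x = T x := by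
    intro x hx
    rw [hTd]
    exact Tw_eq g H X x hH0 hx.2
  have hpt : ∀ x ∈ Set.Icc X (2 * X), |‖T x‖ ^ 2 - q ⌊x - H / 2⌋₊| ≤
      (2 / s) * q ⌊x - H / 2⌋₊ + (2 * s + 4) := by
    intro x hx
    have h1 := Tw_near g hg H x hH (by linarith [hx.1])
    rw [← hL, hTw x hx] at h1
    rw [hq]
    simp only
    obtain ⟨S, hS⟩ : ∃ S : ℝ, S = ‖∑ n ∈ Ioc ⌊x - H / 2⌋₊ (⌊x - H / 2⌋₊ + L), g n‖ := ⟨_, rfl⟩
    obtain ⟨t, ht⟩ : ∃ t : ℝ, t = ‖T x‖ := ⟨_, rfl⟩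
    have h2 : |t - S| ≤ 2 := by
      rw [ht, hS]
      exact (abs_norm_sub_norm_le _ _).trans h1
    have hS0 : 0 ≤ S := by rw [hS]; exact norm_nonneg _
    rw [← hS, ← ht]
    have e1 : t ^ 2 - S ^ 2 = (t - S) * ((t - S) + 2 * S) := by ring
    rw [e1, abs_mul]
    have h3 : |(t - S) + 2 * S| ≤ 2 + 2 * S := by
      refine (abs_add_le _ _).trans ?_
      rw [abs_of_nonneg (by linarith : 0 ≤ 2 * S)]
      linarith
    have h4 : |t - S| * |(t - S) + 2 * S| ≤ 2 * (2 + 2 * S) :=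
      mul_le_mul h2 h3 (abs_nonneg _) (by norm_num)
    refine h4.trans ?_
    have h5 : 4 * S ≤ (2 / s) * S ^ 2 + 2 * s := by
      have h6 : (2 / s) * S ^ 2 + 2 * s - 4 * S = (2 / s) * (S - s) ^ 2 := by
        field_simp
        ring
      have h7 : 0 ≤ (2 / s) * (S - s) ^ 2 := by positivity
      linarith
    linarith
  have hiG : IntervalIntegrable (fun x => q ⌊x - H / 2⌋₊) volume X (2 * X) := by
    have hm : Measurable (fun x : ℝ => q ⌊x - H / 2⌋₊) := (Measurable.of_discrete (f := q)).comp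
      (Nat.measurable_floor.comp (measurable_id.sub_const _))
    refine (intervalIntegrable_const (c := (L:ℝ) ^ 2)).mono_fun hm.aestronglyMeasurable ?_
    refine Eventually.of_forall fun y => ?_
    show ‖q ⌊y - H / 2⌋₊‖ ≤ ‖(L:ℝ) ^ 2‖
    rw [Real.norm_eq_abs, Real.norm_eq_abs]
    exact (hqK _).trans (le_abs_self _)
  have hiM : IntervalIntegrable (fun x => ‖T x‖ ^ 2) volume X (2 * X) := by
    have hm : Measurable (fun x : ℝ => ‖T x‖ ^ 2) := by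
      rw [hTd]
      exact ((meas_T g H _).norm).pow_const 2
    refine (intervalIntegrable_const (c := ((L:ℝ) + 2) ^ 2)).mono_fun hm.aestronglyMeasurable ?_
    rw [Set.uIoc_of_le (by linarith)]
    refine (ae_restrict_iff' measurableSet_Ioc).mpr (Eventually.of_forall fun x hx => ?_)
    show ‖‖T x‖ ^ 2‖ ≤ ‖((L:ℝ) + 2) ^ 2‖
    rw [Real.norm_of_nonneg (by positivity), Real.norm_of_nonneg (by positivity)]
    apply pow_le_pow_left₀ (norm_nonneg _)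
    have h1 := Tw_near g hg H x hH (by linarith [hx.1])
    rw [← hL, hTw x ⟨hx.1.le, hx.2⟩] at h1
    have h2 := hT ⌊x - H / 2⌋₊
    have h3 := norm_sub_norm_le (T x) (∑ n ∈ Ioc ⌊x - H / 2⌋₊ (⌊x - H / 2⌋₊ + L), g n)
    linarith
  have hMo : |(∫ x in X..2 * X, ‖T x‖ ^ 2) - I2| ≤ (2 / s) * I2 + (2 * s + 4) * X := by
    rw [hI2, ← intervalIntegral.integral_sub hiM hiG]
    have e1 : (2 / s) * (∫ x in X..(2 * X), q ⌊x - H / 2⌋₊) + (2 * s + 4) * X =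
        ∫ x in X..(2 * X), ((2 / s) * q ⌊x - H / 2⌋₊ + (2 * s + 4)) := by
      rw [intervalIntegral.integral_add (hiG.const_mul _) intervalIntegrable_const,
        intervalIntegral.integral_const_mul, intervalIntegral.integral_const, smul_eq_mul]
      ring
    rw [e1]
    refine (intervalIntegral.abs_integral_le_integral_abs (by linarith)).trans ?_
    apply intervalIntegral.integral_mono_on (by linarith) (hiM.sub hiG).abs
      ((hiG.const_mul _).add intervalIntegrable_const)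
    exact hpt
  -- conclusion
  have hcongr : (∫ x in X..2 * X, ‖∑ n ∈ (range (⌊x + H⌋₊ + 1)).filter
      (fun n : ℕ => |(n:ℝ) - x| < H / 2), g n‖ ^ 2) = ∫ x in X..2 * X, ‖T x‖ ^ 2 := by
    apply intervalIntegral.integral_congr
    intro x hx
    rw [Set.uIcc_of_le (by linarith)] at hx
    have := hTw x hx
    unfold Tw at this
    simp only
    rw [this]
  rw [hcongr, ← hV, ← hs]
  have hfin : |(∫ x in X..2 * X, ‖T x‖ ^ 2) - H * V| ≤
      (16 * s) * X + 2 * D + (2 * s + 4) * X + (2 * H ^ 2 + 2 * D + (H * (H + 4) + (X + 1))) := by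
    have e : (∫ x in X..2 * X, ‖T x‖ ^ 2) - H * V =
        ((∫ x in X..2 * X, ‖T x‖ ^ 2) - I2) + (I2 - H * V) := by ring
    rw [e]
    refine (abs_add_le _ _).trans ?_
    have h1 : (2 / s) * I2 ≤ (2 / s) * (8 * (H * X) + 2 * D) :=
      mul_le_mul_of_nonneg_left hI2u (by positivity)
    have h3 : (2 / s) * (2 * D) ≤ 1 * (2 * D) :=
      mul_le_mul_of_nonneg_right ((div_le_one hs0).2 hs2') (by linarith)
    rw [mul_add] at h1
    have h2 : (2 / s) * (8 * (H * X)) = (16 * s) * X := by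
      rw [← hs2]; field_simp; ring
    linarith
  refine hfin.trans ?_
  have f1 : X ≤ s * X / 2 := by nlinarith
  have f2 : 4 * H ≤ H ^ 2 := by nlinarith
  have f3 : (1:ℝ) ≤ X := by linarith
  nlinarith

end Pool.Agent.L0h54.CW
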