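import Pool.Agent.L0h54.CW.Int
import Pool.Agent.L0h75.CV.Fin

set_option autoImplicit false

/-! The passage from the sums to the integral, in the wanted form. -/

namespace Pool.Agent.L0h54.CW

theorem t_INT : Pool.Agent.L0h75.CV.S_INT := int_form

end Pool.Agent.L0h54.CW

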